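import Pool.Agent.W127.FrankD

set_option autoImplicit false

namespace Pool.Agent.Results.MP_901b45_co.ExcessTwo

/-- Frank's statement for all integer 2-polymatroids `f` with `|A| ≤ f(A) ≤ |A| + 2`. -/
theorem result (n : ℕ) (f : Finset (Fin n) → ℤ)
    (hf0 : f ∅ = 0) (_hmono : Monotone f)
    (hsub : ∀ A B : Finset (Fin n), f (A ∪ B) + f (A ∩ B) ≤ f A + f B)
    (h2 : ∀ e : Fin n, f {e} ≤ 2)
    (hge : ∀ A : Finset (Fin n), (A.card : ℤ) ≤ f A)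
    (hle : ∀ A : Finset (Fin n), f A ≤ (A.card : ℤ) + 2) :
    ∃ v ∈ Set.extremePoints ℝ
        {x : Fin n → ℝ | (∀ i, 0 ≤ x i) ∧
          ∀ A : Finset (Fin n), ∑ i ∈ A, x i ≤ (f A : ℝ)},
      (∀ i, 0 ≤ 2 - v i) ∧
        ∀ A : Finset (Fin n), ∑ i ∈ A, (2 - v i) ≤ (f A : ℝ) :=
  Pool.Agent.W127.Frank.excess_two n f hf0 hsub h2 hge hle

end Pool.Agent.Results.MP_901b45_co.ExcessTwo
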