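import Mathlib

/-!
Frank's conjecture on complementary vertices of integer 2-polymatroids: the case in which some
integer decomposition of the all-two vector into two members of the polymatroid has at most two
coordinates equal to one.
-/

set_option autoImplicit false

namespace Pool.Agent.Results.MP_901b45_co.FewOnes

open Finset

/-- The polytope of the problem file. -/
def poly {n : ℕ} (f : Finset (Fin n) → ℤ) : Set (Fin n → ℝ) :=
  {x : Fin n → ℝ | (∀ i, 0 ≤ x i) ∧ ∀ A : Finset (Fin n), ∑ i ∈ A, x i ≤ (f A : ℝ)}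

/-- Integer vectors `x` with entries in `{0,1,2}` such that `x` and `2 - x` satisfy all the
inequalities. -/
def Dec {n : ℕ} (f : Finset (Fin n) → ℤ) (x : Fin n → ℤ) : Prop :=
  (∀ i, 0 ≤ x i ∧ x i ≤ 2) ∧ (∀ A : Finset (Fin n), ∑ i ∈ A, x i ≤ f A) ∧
    (∀ A : Finset (Fin n), ∑ i ∈ A, (2 - x i) ≤ f A)

/-- The set of coordinates equal to one. -/
def ones {n : ℕ} (x : Fin n → ℤ) : Finset (Fin n) := univ.filter fun i => x i = 1

variable {n : ℕ} {f : Finset (Fin n) → ℤ}

theorem Dec.compl {x : Fin n → ℤ} (h : Dec f x) : Dec f (fun i => 2 - x i) := by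
  refine ⟨fun i => ?_, h.2.2, fun A => ?_⟩
  · have := h.1 i; constructor <;> simp only <;> omega
  · have := h.2.1 A
    simpa using this

theorem ones_compl (x : Fin n → ℤ) : ones (fun i => 2 - x i) = ones x := by
  ext i; simp only [ones, mem_filter, mem_univ, true_and]; omega

theorem mem_poly {x : Fin n → ℤ} (h : Dec f x) : (fun i => (x i : ℝ)) ∈ poly f := by
  refine ⟨fun i => ?_, fun A => ?_⟩
  · show (0 : ℝ) ≤ (x i : ℝ)
    exact_mod_cast (h.1 i).1
  · show ∑ i ∈ A, (x i : ℝ) ≤ (f A : ℝ)
    exact_mod_cast h.2.1 A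

theorem ext_crit (hf2 : ∀ e : Fin n, f {e} ≤ 2) {x : Fin n → ℤ} (h : Dec f x)
    (hd : ∀ d : Fin n → ℝ, (∀ i, x i ≠ 1 → d i = 0) →
      (∀ A : Finset (Fin n), ∑ i ∈ A, x i = f A → ∑ i ∈ A, d i = 0) → ∀ i, d i = 0) :
    (fun i => (x i : ℝ)) ∈ Set.extremePoints ℝ (poly f) := by
  rw [mem_extremePoints]
  refine ⟨mem_poly h, ?_⟩
  have main : ∀ y ∈ poly f, ∀ z ∈ poly f,
      (fun i => (x i : ℝ)) ∈ openSegment ℝ y z → y = fun i => (x i : ℝ) := by
    intro y hy z hz hseg
    obtain ⟨a, b, ha, hb, hab, hxy⟩ := hseg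
    have hc : ∀ i, a * y i + b * z i = (x i : ℝ) := fun i => by
      have := congrFun hxy i
      simpa using this
    have hD := hd (fun i => y i - x i) ?_ ?_
    · funext i; have := hD i; linarith
    · intro i hi
      have hx := h.1 i
      have hcase : x i = 0 ∨ x i = 2 := by omega
      have hci := hc i
      rcases hcase with h0 | h2
      · have hy0 := hy.1 i
        have hz0 := hz.1 i
        rw [h0] at hci
        simp only [h0, Int.cast_zero, sub_zero]
        simp only [Int.cast_zero] at hci
        nlinarith [mul_nonneg hb.le hz0, mul_nonneg ha.le hy0]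
      · have hy2 := hy.2 {i}
        have hz2 := hz.2 {i}
        have hfi : ((f {i} : ℤ) : ℝ) ≤ 2 := by exact_mod_cast hf2 i
        simp only [sum_singleton] at hy2 hz2
        have hyi : y i ≤ 2 := hy2.trans hfi
        have hzi : z i ≤ 2 := hz2.trans hfi
        rw [h2] at hci
        simp only [h2]
        have hci' : a * y i + b * z i = 2 := by rw [hci]; norm_num
        have hge : (2 : ℝ) ≤ y i := by
          by_contra hlt
          push Not at hlt
          have h1 : a * y i < a * 2 := by exact mul_lt_mul_of_pos_left hlt ha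
          have h3 : b * z i ≤ b * 2 := mul_le_mul_of_nonneg_left hzi hb.le
          nlinarith
        push_cast
        linarith
    · intro A hA
      have hyA := hy.2 A
      have hzA := hz.2 A
      have hxA : ∑ i ∈ A, ((x i : ℤ) : ℝ) = (f A : ℝ) := by exact_mod_cast hA
      have hsum : a * ∑ i ∈ A, y i + b * ∑ i ∈ A, z i = (f A : ℝ) := by
        rw [← hxA, mul_sum, mul_sum, ← sum_add_distrib]
        exact sum_congr rfl fun i _ => hc i
      have hge : (f A : ℝ) ≤ ∑ i ∈ A, y i := by
        by_contra hlt
        push Not at hlt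
        have h1 : a * ∑ i ∈ A, y i < a * (f A : ℝ) := mul_lt_mul_of_pos_left hlt ha
        have h3 : b * ∑ i ∈ A, z i ≤ b * (f A : ℝ) := mul_le_mul_of_nonneg_left hzA hb.le
        have : a * (f A : ℝ) + b * (f A : ℝ) = (f A : ℝ) := by rw [← add_mul, hab, one_mul]
        linarith
      rw [sum_sub_distrib, hxA]
      linarith
  intro y hy z hz hseg
  refine ⟨main y hy z hz hseg, main z hz y hy ?_⟩
  rwa [openSegment_symm]

/-- Changing one coordinate equal to one into two. -/
theorem tight_of_min {x : Fin n → ℤ} (h : Dec f x)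
    (hmin : ∀ y, Dec f y → (ones x).card ≤ (ones y).card) {i : Fin n} (hi : x i = 1) :
    ∃ A : Finset (Fin n), i ∈ A ∧ ∑ k ∈ A, x k = f A := by
  by_contra hno
  push Not at hno
  let y : Fin n → ℤ := Function.update x i 2
  have hyA : ∀ A : Finset (Fin n), ∑ k ∈ A, y k = ∑ k ∈ A, x k + (if i ∈ A then 1 else 0) := by
    intro A
    have : ∀ k, y k = x k + (if k = i then 1 else 0) := by
      intro k
      by_cases hk : k = i
      · subst hk; simp [y, hi]
      · simp [y, hk]
    simp only [this, sum_add_distrib, sum_ite_eq']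
  have hy : Dec f y := by
    refine ⟨fun k => ?_, fun A => ?_, fun A => ?_⟩
    · by_cases hk : k = i
      · subst hk; simp [y]
      · simpa [y, hk] using h.1 k
    · rw [hyA]
      split_ifs with hiA
      · have h1 := h.2.1 A
        have h2 := hno A hiA
        omega
      · simpa using h.2.1 A
    · have h1 := h.2.2 A
      rw [sum_sub_distrib] at h1 ⊢
      rw [hyA]
      split_ifs <;> omega
  have hlt : (ones y).card < (ones x).card := by
    apply card_lt_card
    refine ⟨fun k hk => ?_, fun hsub => ?_⟩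
    · simp only [ones, mem_filter, mem_univ, true_and] at hk ⊢
      by_cases hki : k = i
      · subst hki; exact hi
      · simpa [y, hki] using hk
    · have : i ∈ ones y := hsub (by simp [ones, hi])
      simp [ones, y] at this
  exact absurd (hmin y hy) (not_le.mpr hlt)

/-- If exactly two coordinates `i`, `j` are one and some tight set separates them, the vector is a
vertex. -/
theorem ext_of_sep (hf2 : ∀ e : Fin n, f {e} ≤ 2) {x : Fin n → ℤ} (h : Dec f x)
    (hmin : ∀ y, Dec f y → (ones x).card ≤ (ones y).card) {i j : Fin n} (hij : i ≠ j)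
    (hZ : ones x = {i, j})
    (hsep : ∃ A : Finset (Fin n), i ∈ A ∧ j ∉ A ∧ ∑ k ∈ A, x k = f A) :
    (fun i => (x i : ℝ)) ∈ Set.extremePoints ℝ (poly f) := by
  apply ext_crit hf2 h
  intro d hd ht
  have hxi : x i = 1 := by
    have : i ∈ ones x := by rw [hZ]; simp
    simpa [ones] using this
  have hxj : x j = 1 := by
    have : j ∈ ones x := by rw [hZ]; simp
    simpa [ones] using this
  have hdk : ∀ k, d k = (if k = i then d i else 0) + (if k = j then d j else 0) := by
    intro k
    by_cases hki : k = i
    · subst hki; simp [hij]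
    · by_cases hkj : k = j
      · subst hkj; simp [hki]
      · simp only [hki, hkj, if_false, add_zero]
        apply hd
        intro hk1
        have : k ∈ ones x := by simp [ones, hk1]
        rw [hZ] at this
        simp [hki, hkj] at this
  have hsum : ∀ A : Finset (Fin n),
      ∑ k ∈ A, d k = (if i ∈ A then d i else 0) + (if j ∈ A then d j else 0) := by
    intro A
    rw [sum_congr rfl fun k _ => hdk k, sum_add_distrib, sum_ite_eq', sum_ite_eq']
  obtain ⟨A, hiA, hjA, hA⟩ := hsep
  have h1 := ht A hA
  rw [hsum] at h1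
  simp only [hiA, hjA, if_true, if_false, add_zero] at h1
  obtain ⟨B, hjB, hB⟩ := tight_of_min h hmin hxj
  have h2 := ht B hB
  rw [hsum] at h2
  simp only [hjB, if_true, h1, ite_self, zero_add] at h2
  intro k
  rw [hdk k, h1, h2]
  simp

theorem key (hf2 : ∀ e : Fin n, f {e} ≤ 2) {x : Fin n → ℤ} (h : Dec f x)
    (hmin : ∀ y, Dec f y → (ones x).card ≤ (ones y).card) (h2 : (ones x).card ≤ 2) :
    ∃ y : Fin n → ℤ, Dec f y ∧ (fun i => (y i : ℝ)) ∈ Set.extremePoints ℝ (poly f) := by
  have hcases : (ones x).card = 0 ∨ (ones x).card = 1 ∨ (ones x).card = 2 := by omega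
  rcases hcases with h0 | h1 | h2
  · refine ⟨x, h, ext_crit hf2 h fun d hd _ i => hd i fun hi => ?_⟩
    rw [card_eq_zero] at h0
    have : i ∈ ones x := by simp [ones, hi]
    rw [h0] at this
    simp at this
  · obtain ⟨i, hi⟩ := card_eq_one.mp h1
    have hxi : x i = 1 := by
      have : i ∈ ones x := by rw [hi]; simp
      simpa [ones] using this
    obtain ⟨A, hiA, hA⟩ := tight_of_min h hmin hxi
    refine ⟨x, h, ext_crit hf2 h fun d hd ht k => ?_⟩
    have hdk : ∀ k, d k = (if k = i then d i else 0) := by
      intro k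
      by_cases hki : k = i
      · subst hki; simp
      · simp only [hki, if_false]
        apply hd
        intro hk1
        have : k ∈ ones x := by simp [ones, hk1]
        rw [hi] at this
        simp [hki] at this
    have h3 := ht A hA
    rw [sum_congr rfl fun k _ => hdk k, sum_ite_eq', if_pos hiA] at h3
    rw [hdk k, h3]
    simp
  · obtain ⟨i, j, hij, hZ⟩ := card_eq_two.mp h2
    have hxi : x i = 1 := by
      have : i ∈ ones x := by rw [hZ]; simp
      simpa [ones] using this
    have hxj : x j = 1 := by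
      have : j ∈ ones x := by rw [hZ]; simp
      simpa [ones] using this
    by_cases hA : ∃ A : Finset (Fin n), i ∈ A ∧ j ∉ A ∧ ∑ k ∈ A, x k = f A
    · exact ⟨x, h, ext_of_sep hf2 h hmin hij hZ hA⟩
    have hc := h.compl
    have hminc : ∀ y, Dec f y → (ones (fun i => 2 - x i)).card ≤ (ones y).card := by
      intro y hy; rw [ones_compl]; exact hmin y hy
    have hZc : ones (fun i => 2 - x i) = {j, i} := by rw [ones_compl, hZ, pair_comm]
    by_cases hB : ∃ A : Finset (Fin n), j ∈ A ∧ i ∉ A ∧ ∑ k ∈ A, (2 - x k) = f A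
    · exact ⟨_, hc, ext_of_sep hf2 hc hminc hij.symm hZc hB⟩
    exfalso
    push Not at hA hB
    let y : Fin n → ℤ := fun k => x k + (if k = i then 1 else 0) - (if k = j then 1 else 0)
    have hyA : ∀ A : Finset (Fin n), ∑ k ∈ A, y k
        = ∑ k ∈ A, x k + (if i ∈ A then 1 else 0) - (if j ∈ A then 1 else 0) := by
      intro A
      simp only [y, sum_sub_distrib, sum_add_distrib, sum_ite_eq']
    have hy : Dec f y := by
      refine ⟨fun k => ?_, fun A => ?_, fun A => ?_⟩
      · have := h.1 k
        simp only [y]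
        by_cases hki : k = i
        · subst hki; simp [hij, hxi]
        · by_cases hkj : k = j
          · subst hkj; simp [hki, hxj]
          · simpa [hki, hkj] using this
      · rw [hyA]
        have h1 := h.2.1 A
        by_cases hiA : i ∈ A
        · by_cases hjA : j ∈ A
          · simp only [hiA, hjA, if_true]; omega
          · have := hA A hiA hjA
            simp only [hiA, hjA, if_true, if_false]; omega
        · simp only [hiA, if_false]; split_ifs <;> omega
      · have h1 := h.2.2 A
        rw [sum_sub_distrib, hyA]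
        rw [sum_sub_distrib] at h1
        by_cases hjA : j ∈ A
        · by_cases hiA : i ∈ A
          · simp only [hiA, hjA, if_true]; omega
          · have := hB A hjA hiA
            rw [sum_sub_distrib] at this
            simp only [hiA, hjA, if_true, if_false]; omega
        · simp only [hjA, if_false]; split_ifs <;> omega
    have hlt : (ones y).card < (ones x).card := by
      apply card_lt_card
      refine ⟨fun k hk => ?_, fun hsub => ?_⟩
      · simp only [ones, mem_filter, mem_univ, true_and] at hk ⊢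
        by_cases hki : k = i
        · subst hki; exact hxi
        · by_cases hkj : k = j
          · subst hkj; exact hxj
          · simpa [y, hki, hkj] using hk
      · have : i ∈ ones y := hsub (by simp [ones, hxi])
        simp [ones, y, hij, hxi] at this
    exact absurd (hmin y hy) (not_le.mpr hlt)

/-- If the all-two vector is the sum of two integer vectors satisfying the inequalities, at most
two of whose coordinates are one, then there is a vertex `v` with `2 - v` in the polytope. -/
theorem result (n : ℕ) (f : Finset (Fin n) → ℤ) (hf2 : ∀ e : Fin n, f {e} ≤ 2)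
    (x : Fin n → ℤ) (hx : ∀ i, 0 ≤ x i ∧ x i ≤ 2)
    (h1 : ∀ A : Finset (Fin n), ∑ i ∈ A, x i ≤ f A)
    (h2 : ∀ A : Finset (Fin n), ∑ i ∈ A, (2 - x i) ≤ f A)
    (hone : (Finset.univ.filter fun i => x i = 1).card ≤ 2) :
    ∃ v ∈ Set.extremePoints ℝ
        {x : Fin n → ℝ | (∀ i, 0 ≤ x i) ∧
          ∀ A : Finset (Fin n), ∑ i ∈ A, x i ≤ (f A : ℝ)},
      (∀ i, 0 ≤ 2 - v i) ∧
        ∀ A : Finset (Fin n), ∑ i ∈ A, (2 - v i) ≤ (f A : ℝ) := by
  classical
  let S : Set ℕ := {m | ∃ y : Fin n → ℤ, Dec f y ∧ (ones y).card = m}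
  have hS : S.Nonempty := ⟨_, x, ⟨hx, h1, h2⟩, rfl⟩
  obtain ⟨y, hy, hym⟩ := Nat.sInf_mem hS
  have hmin : ∀ w, Dec f w → (ones y).card ≤ (ones w).card := by
    intro w hw
    rw [hym]
    exact Nat.sInf_le ⟨w, hw, rfl⟩
  have hy2 : (ones y).card ≤ 2 := (hmin x ⟨hx, h1, h2⟩).trans hone
  obtain ⟨w, hw, hext⟩ := key hf2 hy hmin hy2
  refine ⟨_, hext, fun i => ?_, fun A => ?_⟩
  · have := (hw.1 i).2
    have h' : ((w i : ℤ) : ℝ) ≤ 2 := by exact_mod_cast this
    show (0 : ℝ) ≤ 2 - (w i : ℝ)
    linarith
  · have := hw.2.2 A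
    show ∑ i ∈ A, (2 - (w i : ℝ)) ≤ (f A : ℝ)
    exact_mod_cast this

end Pool.Agent.Results.MP_901b45_co.FewOnes
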